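import Mathlib

set_option autoImplicit false

namespace Pool.Agent.Results.MP_47cbd1_al.NotInvertible

open ProfiniteGrp ProfiniteGrp.ProfiniteCompletion CategoryTheory

/-- the free profinite group on two generators: the profinite completion of the free group on
two generators -/
abbrev Fhat : ProfiniteGrp.{0} := completion (GrpCat.of (FreeGroup (Fin 2)))

/-- the first free generator -/
def x : Fhat := etaFn (GrpCat.of (FreeGroup (Fin 2))) (FreeGroup.of 0)

/-- the second free generator -/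
def y : Fhat := etaFn (GrpCat.of (FreeGroup (Fin 2))) (FreeGroup.of 1)

lemma exists_lift (P : ProfiniteGrp.{0}) (a b : P) :
    ∃ φ : Fhat →* P, Continuous φ ∧ φ x = a ∧ φ y = b := by
  let ρ : FreeGroup (Fin 2) →* P := FreeGroup.lift ![a, b]
  let f : GrpCat.of (FreeGroup (Fin 2)) ⟶ GrpCat.of P := GrpCat.ofHom ρ
  have h := lift_eta f
  refine ⟨(lift f).hom.toMonoidHom, (lift f).hom.continuous_toFun, ?_, ?_⟩
  · have := ConcreteCategory.congr_hom h (FreeGroup.of 0)
    refine Eq.trans this ?_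
    show ρ (FreeGroup.of 0) = a
    simp [ρ]
  · have := ConcreteCategory.congr_hom h (FreeGroup.of 1)
    refine Eq.trans this ?_
    show ρ (FreeGroup.of 1) = b
    simp [ρ]

lemma mem_of_gen {P : Type} [Group P] [TopologicalSpace P] [DiscreteTopology P] (ψ : Fhat →* P)
    (hψ : Continuous ψ) (H : Subgroup P) (hx : ψ x ∈ H) (hy : ψ y ∈ H) (z : Fhat) : ψ z ∈ H := by
  refine (denseRange (GrpCat.of (FreeGroup (Fin 2)))).induction_on (p := fun z => ψ z ∈ H) z ?_ ?_
  · exact (isClosed_discrete (H : Set P)).preimage hψ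
  · intro w
    let e : FreeGroup (Fin 2) →* Fhat := (eta (GrpCat.of (FreeGroup (Fin 2)))).hom
    show ψ (e w) ∈ H
    induction w using FreeGroup.induction_on with
    | C1 => simp
    | of i =>
      fin_cases i
      · exact hx
      · exact hy
    | inv_of i h => rw [map_inv, map_inv]; exact H.inv_mem h
    | mul u v hu hv => rw [map_mul, map_mul]; exact H.mul_mem hu hv

/-- There is `f` in the closed derived subgroup of the free profinite group on `x, y` such that
the continuous endomorphism `x ↦ x`, `y ↦ f⁻¹ y f` (the case `λ = 1`) is not surjective. -/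
theorem result :
    ∃ f : Fhat, f ∈ (commutator Fhat).topologicalClosure ∧
      ∃ φ : Fhat →* Fhat, Continuous φ ∧ φ x = x ∧ φ y = f⁻¹ * y * f ∧
        ¬ Function.Surjective φ := by
  refine ⟨y * x * y⁻¹ * x⁻¹, Subgroup.le_topologicalClosure _
    (Subgroup.commutator_mem_commutator (Subgroup.mem_top y) (Subgroup.mem_top x)), ?_⟩
  obtain ⟨φ, hφ, hx, hy⟩ := exists_lift Fhat x ((y * x * y⁻¹ * x⁻¹)⁻¹ * y * (y * x * y⁻¹ * x⁻¹))
  refine ⟨φ, hφ, hx, hy, fun hs => ?_⟩
  let S : ProfiniteGrp.{0} := ProfiniteGrp.ofFiniteGrp (FiniteGrp.of (Equiv.Perm (Fin 3)))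
  let a : Equiv.Perm (Fin 3) := Equiv.swap 0 1
  let b : Equiv.Perm (Fin 3) := Equiv.swap 0 2
  obtain ⟨π, hπ, ha, hb⟩ := exists_lift S a b
  have : DiscreteTopology S := ⟨rfl⟩
  let π' : Fhat →* Equiv.Perm (Fin 3) := π
  have ha' : π' x = a := ha
  have hb' : π' y = b := hb
  obtain ⟨z, hz⟩ := hs y
  let H : Subgroup (Equiv.Perm (Fin 3)) := MulAction.stabilizer (Equiv.Perm (Fin 3)) (2 : Fin 3)
  have h1 : π' (φ x) ∈ H := by
    rw [hx, ha']
    show a 2 = 2
    decide
  have h2 : π' (φ y) ∈ H := by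
    rw [hy]
    simp only [map_mul, map_inv, ha', hb']
    show ((b * a * b⁻¹ * a⁻¹)⁻¹ * b * (b * a * b⁻¹ * a⁻¹)) 2 = 2
    decide
  have h3 : π' (φ z) ∈ H := mem_of_gen (P := S) (π.comp φ) (hπ.comp hφ) H h1 h2 z
  rw [hz, hb'] at h3
  have h4 : b 2 = 2 := h3
  revert h4
  decide

end Pool.Agent.Results.MP_47cbd1_al.NotInvertible
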